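import Pool.Agent.Y269.RankDef
import Pool.Agent.Y269.RK.Full

/-!
The final theorem on ranks.
-/

set_option autoImplicit false

namespace Pool.Agent.Y269.RankFinal

open Filter Topology
open scoped ENNReal NNReal
open Pool.Agent.Y269.RK Pool.Agent.Y269.RankDef

noncomputable section

/-! ### auxiliary facts -/

lemma isQuasitrace_of {R : Type} [Ring R] [StarRing R] [Algebra ℂ R] {τ : R → ℂ}
    (hpos : ∀ x : R, 0 ≤ (τ (star x * x)).re ∧ (τ (star x * x)).im = 0)
    (hcomm : ∀ x : R, τ (star x * x) = τ (x * star x))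
    (hadd : ∀ x y : R, τ (x + y) = τ x + τ y) (hsmul : ∀ (c : ℂ) (x : R), τ (c • x) = c * τ x) :
    IsQuasitrace τ where
  nonneg := hpos
  comm := hcomm
  add_I a b _ _ := by rw [hadd, hsmul]
  linear c x y _ _ _ _ := by rw [hadd, hsmul]

lemma trc_im (D : SD) (x : EA) : (trc amb D (star x * x)).im = 0 := by
  refine tendsto_nhds_unique
    ((Complex.continuous_im.tendsto _).comp (trc_tendsto amb D (star x * x)))
    (tendsto_const_nhds.congr fun k => ?_)
  simp only [Function.comp_apply, map_mul, map_star]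
  exact (avg_star_mul_im _ _).symm

/-- the limit trace as a quasitrace -/
def trQ (D : SD) : QT ↥(A0 amb) :=
  ⟨fun x => trc amb D (x : EA),
    isQuasitrace_of (fun x => ⟨trc_pos amb D (x : EA), trc_im D (x : EA)⟩)
      (fun x => trc_comm amb D (star_mem x.2) x.2) (fun x y => trc_add amb D _ _)
      (fun c x => trc_smul amb D c _), trc_one amb D, by
    refine ⟨fun X => trc amb D (X 0 0 : EA) + trc amb D (X 1 1 : EA), ?_, ?_⟩
    · have e1 : ∀ (X : Matrix (Fin 2) (Fin 2) ↥(A0 amb)) (j : Fin 2),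
          (((star X * X) j j : ↥(A0 amb)) : EA) =
            star (X 0 j : EA) * (X 0 j : EA) + star (X 1 j : EA) * (X 1 j : EA) := by
        intro X j
        rw [Matrix.mul_apply, Fin.sum_univ_two]
        rfl
      have e2 : ∀ (X : Matrix (Fin 2) (Fin 2) ↥(A0 amb)) (j : Fin 2),
          (((X * star X) j j : ↥(A0 amb)) : EA) =
            (X j 0 : EA) * star (X j 0 : EA) + (X j 1 : EA) * star (X j 1 : EA) := by
        intro X j
        rw [Matrix.mul_apply, Fin.sum_univ_two]
        rfl
      refine isQuasitrace_of (fun X => ?_) (fun X => ?_) (fun X Y => ?_) (fun c X => ?_)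
      · simp only [e1, trc_add, Complex.add_re, Complex.add_im]
        have h1 := fun x : EA => trc_pos amb D x
        have h2 := fun x : EA => trc_im D x
        refine ⟨?_, ?_⟩
        · have := h1 (X 0 0 : EA)
          have := h1 (X 1 0 : EA)
          have := h1 (X 0 1 : EA)
          have := h1 (X 1 1 : EA)
          linarith
        · rw [h2, h2, h2, h2]
          norm_num
      · simp only [e1, e2, trc_add]
        have h1 : ∀ x : ↥(A0 amb), trc amb D (star (x : EA) * (x : EA)) =
            trc amb D ((x : EA) * star (x : EA)) := fun x => trc_comm amb D (star_mem x.2) x.2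
        rw [h1, h1, h1, h1]
        ring
      · have h1 : ∀ j : Fin 2, (((X + Y) j j : ↥(A0 amb)) : EA) = (X j j : EA) + (Y j j : EA) :=
          fun j => rfl
        simp only [h1, trc_add]
        ring
      · have h1 : ∀ j : Fin 2, (((c • X) j j : ↥(A0 amb)) : EA) = c • (X j j : EA) :=
          fun j => rfl
        simp only [h1, trc_smul]
        ring
    · intro a
      show trc amb D (a : EA) + trc amb D ((0 : ↥(A0 amb)) : EA) = trc amb D (a : EA)
      have : trc amb D ((0 : ↥(A0 amb)) : EA) = 0 := trc_zero amb D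
      rw [this, add_zero]⟩

lemma trQ_apply (D : SD) (x : ↥(A0 amb)) : (trQ D).val x = trc amb D (x : EA) := rfl

/-- the function which is not a rank function -/
def fF (τ : QT ↥(A0 amb)) : ℝ≥0∞ := ENNReal.ofReal (τ.val (1 + wE amb)).re

lemma fF_trQ (D : SD) : fF (trQ D) = ENNReal.ofReal (trc amb D (hE amb)).re := rfl

lemma val_add (τ : QT ↥(A0 amb)) (c : ℂ) :
    τ.val (c • wE amb + 1) = c * τ.val (wE amb) + 1 := by
  have h1 := τ.isQuasitrace.linear c (wE amb) 1 (wE_sa amb).isStarNormal inferInstance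
    (Commute.one_right _) (by rw [star_one]; exact Commute.one_right _)
  rw [h1, τ.map_one]

lemma val_w (τ : QT ↥(A0 amb)) : 0 ≤ (τ.val (wE amb)).re ∧ (τ.val (wE amb)).re ≤ 1 := by
  refine ⟨?_, ?_⟩
  · obtain ⟨c, hc⟩ := wE_pos amb
    rw [hc]
    exact (τ.isQuasitrace.nonneg c).1
  · obtain ⟨c, hc⟩ := one_sub_wE_pos amb
    have h1 := (τ.isQuasitrace.nonneg c).1
    rw [← hc] at h1
    have h2 := val_add τ (-1)
    have h3 : (-1 : ℂ) • wE amb + 1 = 1 - wE amb := by
      rw [neg_smul, one_smul]; abel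
    rw [h3] at h2
    rw [h2] at h1
    simp only [Complex.add_re, Complex.one_re, neg_mul, one_mul, Complex.neg_re] at h1
    linarith

lemma val_h (τ : QT ↥(A0 amb)) : (τ.val (1 + wE amb)).re = 1 + (τ.val (wE amb)).re := by
  have h2 := val_add τ 1
  rw [one_smul, add_comm, one_mul] at h2
  rw [h2, Complex.add_re, Complex.one_re, add_comm]

lemma fF_bd (τ : QT ↥(A0 amb)) : 1 ≤ fF τ ∧ fF τ ≤ 2 := by
  have h1 := val_w τ
  unfold fF
  rw [val_h]
  refine ⟨?_, ?_⟩
  · rw [← ENNReal.ofReal_one]
    exact ENNReal.ofReal_le_ofReal (by linarith)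
  · refine (ENNReal.ofReal_le_ofReal (show 1 + (τ.val (wE amb)).re ≤ 2 by linarith)).trans_eq ?_
    norm_num

lemma fF_continuous : Continuous fF := by
  unfold fF
  refine ENNReal.continuous_ofReal.comp (Complex.continuous_re.comp ?_)
  exact (continuous_apply (1 + wE amb)).comp continuous_induced_dom

lemma fF_affine : IsAffine fF := by
  intro τ σ ρ s hs h
  have h1 : 0 ≤ (τ.val (1 + wE amb)).re := by rw [val_h]; linarith [(val_w τ).1]
  have h2 : 0 ≤ (σ.val (1 + wE amb)).re := by rw [val_h]; linarith [(val_w σ).1]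
  unfold fF
  have h3 : (ρ.val (1 + wE amb)).re =
      (s : ℝ) * (τ.val (1 + wE amb)).re + ((1 - s : ℝ≥0) : ℝ) * (σ.val (1 + wE amb)).re := by
    rw [h, Complex.add_re]
    have e : ∀ (r : ℝ≥0) (z : ℂ), ((r : ℂ) * z).re = (r : ℝ) * z.re := by
      intro r z
      have : ((r : ℝ≥0) : ℂ) = (((r : ℝ) : ℝ) : ℂ) := rfl
      rw [this, Complex.re_ofReal_mul]
    rw [e, e]
  rw [h3, ENNReal.ofReal_add (by positivity) (by positivity), ENNReal.ofReal_mul (by positivity),
    ENNReal.ofReal_mul (by positivity), ENNReal.ofReal_coe_nnreal, ENNReal.ofReal_coe_nnreal]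

lemma tB_isLscTrace (D : SD) : IsLscTrace (tB amb D) where
  add a b ha hb := tB_add amb D ((ps_iff amb a).mp ha) ((ps_iff amb b).mp hb)
  smul t b _ := by
    have := tB_smul amb D (NNReal.coe_nonneg t) b
    rw [ENNReal.ofReal_coe_nnreal] at this
    exact this
  comm x := tB_comm amb D x
  lsc := (tB_lsc amb D).lowerSemicontinuousOn _

lemma tB_extends (D : SD) : Extends (fun i j => iotL amb i j) (trQ D) (tB amb D) :=
  fun x => tB_iot amb D (star x * x)

theorem final : ∃ (A : Type) (_ : CStarAlgebra A) (B : Type) (_ : NonUnitalCStarAlgebra B)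
    (_ : PartialOrder B) (_ : StarOrderedRing B) (ι : ℕ → ℕ → A →ₗ[ℂ] B),
    IsStabilisation ι ∧ TopologicalSpace.SeparableSpace A ∧ IsSimpleRing A ∧ StablyFinite A ∧
    NonElementary A ∧
    ∃ f : QT A → ℝ≥0∞, Continuous f ∧ IsAffine f ∧ (∀ τ, 1 ≤ f τ ∧ f τ ≤ 2) ∧
      ∀ a : B, 0 ≤ a → ∃ (τ : QT A) (σ : B → ℝ≥0∞), IsTrace τ ∧
        IsLscTrace σ ∧ Extends ι τ σ ∧ ¬ HasRank σ a (f τ) := by
  refine ⟨↥(A0 amb), inferInstance, ↥(BB amb), inferInstance, instPO amb, instSO amb,
    fun i j => iotL amb i j, ⟨?_, ?_, ?_, ?_⟩, separable amb, simple amb,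
    Pool.Agent.Y776.RK.stably_finite amb, Pool.Agent.Y776.RK.nonelem amb, fF, fF_continuous,
    fF_affine, fF_bd, ?_⟩
  · exact fun i j k l a b => iot_mul amb i j k l a b
  · exact fun i j a => iot_star amb i j a
  · exact fun i j => iot_inj amb i j
  · rw [Submodule.dense_iff_topologicalClosure_eq_top]
    exact span_dense amb
  · intro a ha
    by_contra hcon
    push Not at hcon
    refine no_rank_thm (RH_of amb a ha fun D => ?_)
    exact hcon (trQ D) (tB amb D) (fun x y => trc_add amb D _ _) (tB_isLscTrace D) (tB_extends D)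

end

end Pool.Agent.Y269.RankFinal
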