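import Mathlib

/-!
# Definitions for Elliott's question on purely infinite simple C*-algebras
-/

set_option autoImplicit false

namespace Pool.Agent.Y269.ElliottDef

open Filter Topology

/-- The projection `p` is infinite: there is `v` with `v* v = p`, `v v* ≤ p` and `v v* ≠ p`
(for projections `q ≤ p` means `p q = q`). -/
def InfiniteProj {A : Type} [CStarAlgebra A] (p : A) : Prop :=
  ∃ v : A, star v * v = p ∧ p * (v * star v) = v * star v ∧ v * star v ≠ p

/-- Positive elements: the elements of the form `x* x`. -/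
def IsPos {A : Type} [CStarAlgebra A] (a : A) : Prop := ∃ x : A, a = star x * x

/-- `a` is Cuntz below `b`: there are `r n` with `r n * b * (r n)* → a`. -/
def CuntzBelow {A : Type} [CStarAlgebra A] (a b : A) : Prop :=
  ∃ r : ℕ → A, Tendsto (fun n => r n * b * star (r n)) atTop (𝓝 a)

/-- Closed two-sided ideals. -/
structure IsClosedIdeal {A : Type} [CStarAlgebra A] (J : Set A) : Prop where
  isClosed : IsClosed J
  zero_mem : (0 : A) ∈ J
  add_mem : ∀ x ∈ J, ∀ y ∈ J, x + y ∈ J
  smul_mem : ∀ (c : ℂ), ∀ x ∈ J, c • x ∈ J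
  mul_mem_left : ∀ (a : A), ∀ x ∈ J, a * x ∈ J
  mul_mem_right : ∀ (a : A), ∀ x ∈ J, x * a ∈ J

/-- The closed two-sided ideal generated by `b`. -/
def closedIdeal {A : Type} [CStarAlgebra A] (b : A) : Set A := ⋂₀ {J | IsClosedIdeal J ∧ b ∈ J}

/-- `A` is purely infinite: it has no nonzero multiplicative linear functionals, and `a ≾ b` for
all positive `a`, `b` such that `a` is in the closed two-sided ideal generated by `b`. -/
def PurelyInfinite (A : Type) [CStarAlgebra A] : Prop :=
  (∀ χ : A →ₙₐ[ℂ] ℂ, χ = 0) ∧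
    ∀ a b : A, IsPos a → IsPos b → a ∈ closedIdeal b → CuntzBelow a b

end Pool.Agent.Y269.ElliottDef
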