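import Mathlib

/-!
# Definitions for the rank problem
-/

set_option autoImplicit false

namespace Pool.Agent.Y269.RankDef

open Filter Topology
open scoped ENNReal NNReal

noncomputable section

/-- `A` is stably finite: in every matrix algebra over `A` every isometry is a unitary. -/
def StablyFinite (A : Type) [CStarAlgebra A] : Prop :=
  ∀ (n : ℕ) (v : Matrix (Fin n) (Fin n) A), star v * v = 1 → v * star v = 1

/-- `A` is not isomorphic to a full matrix algebra over the complex numbers. -/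
def NonElementary (A : Type) [CStarAlgebra A] : Prop :=
  ∀ n : ℕ, IsEmpty (A ≃⋆ₐ[ℂ] Matrix (Fin n) (Fin n) ℂ)

/-- The axioms of a (1-)quasitrace on a unital *-algebra: `0 ≤ τ(x* x) = τ(x x*)`,
`τ(a + i b) = τ(a) + i τ(b)` for self-adjoint `a`, `b`, and `τ` is linear on commutative
*-subalgebras (two elements lie in a common commutative *-subalgebra if and only if they are normal
and each commutes with the other and its adjoint). -/
structure IsQuasitrace {R : Type} [Ring R] [StarRing R] [Algebra ℂ R] (τ : R → ℂ) : Prop where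
  nonneg : ∀ x : R, 0 ≤ (τ (star x * x)).re ∧ (τ (star x * x)).im = 0
  comm : ∀ x : R, τ (star x * x) = τ (x * star x)
  add_I : ∀ a b : R, IsSelfAdjoint a → IsSelfAdjoint b →
    τ (a + Complex.I • b) = τ a + Complex.I * τ b
  linear : ∀ (c : ℂ) (x y : R), IsStarNormal x → IsStarNormal y → Commute x y →
    Commute x (star y) → τ (c • x + y) = c * τ x + τ y

/-- The normalised 2-quasitraces on `A`: quasitraces `τ` with `τ(1) = 1` which extend to a
quasitrace on the 2 × 2 matrices over `A`. -/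
structure QT (A : Type) [CStarAlgebra A] where
  val : A → ℂ
  isQuasitrace : IsQuasitrace val
  map_one : val 1 = 1
  two : ∃ τ₂ : Matrix (Fin 2) (Fin 2) A → ℂ, IsQuasitrace τ₂ ∧ ∀ a : A, τ₂ !![a, 0; 0, 0] = val a

/-- The weak* topology (pointwise convergence on `A`). -/
instance (A : Type) [CStarAlgebra A] : TopologicalSpace (QT A) :=
  TopologicalSpace.induced QT.val Pi.topologicalSpace

/-- The quasitrace `τ` is a trace (is additive). -/
def IsTrace {A : Type} [CStarAlgebra A] (τ : QT A) : Prop :=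
  ∀ x y : A, τ.val (x + y) = τ.val x + τ.val y

/-- Affine functions on the set of quasitraces. -/
def IsAffine {A : Type} [CStarAlgebra A] (f : QT A → ℝ≥0∞) : Prop :=
  ∀ (τ σ ρ : QT A) (s : ℝ≥0), s ≤ 1 →
    (∀ x : A, ρ.val x = (s : ℂ) * τ.val x + ((1 - s : ℝ≥0) : ℂ) * σ.val x) →
    f ρ = s * f τ + ((1 - s : ℝ≥0) : ℝ≥0∞) * f σ

/-- `B`, with the maps `ι i j a = a ⊗ e_{ij}`, is the stabilisation `A ⊗ K` of `A`: `B` is a
C*-algebra containing the matrices over `A` of all sizes as a dense *-subalgebra. -/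
structure IsStabilisation {A B : Type} [CStarAlgebra A] [NonUnitalCStarAlgebra B]
    (ι : ℕ → ℕ → A →ₗ[ℂ] B) : Prop where
  mul : ∀ (i j k l : ℕ) (a b : A), ι i j a * ι k l b = if j = k then ι i l (a * b) else 0
  star : ∀ (i j : ℕ) (a : A), star (ι i j a) = ι j i (star a)
  injective : ∀ i j : ℕ, Function.Injective (ι i j)
  dense : Dense ((Submodule.span ℂ {b : B | ∃ (i j : ℕ) (a : A), b = ι i j a} : Submodule ℂ B) :
    Set B)

/-- `σ` (only its values on positive elements matter) is a lower semicontinuous trace on the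
positive cone of `B`, with values in `[0,∞]`. -/
structure IsLscTrace {B : Type} [NonUnitalCStarAlgebra B] [PartialOrder B] [StarOrderedRing B]
    (σ : B → ℝ≥0∞) : Prop where
  add : ∀ a b : B, 0 ≤ a → 0 ≤ b → σ (a + b) = σ a + σ b
  smul : ∀ (t : ℝ≥0) (b : B), 0 ≤ b → σ ((t : ℂ) • b) = t * σ b
  comm : ∀ x : B, σ (star x * x) = σ (x * star x)
  lsc : LowerSemicontinuousOn σ {b : B | 0 ≤ b}

/-- `σ` extends `τ` (`x ⊗ e₀₀` is identified with `x`). -/
def Extends {A B : Type} [CStarAlgebra A] [NonUnitalCStarAlgebra B] (ι : ℕ → ℕ → A →ₗ[ℂ] B)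
    (τ : QT A) (σ : B → ℝ≥0∞) : Prop :=
  ∀ x : A, σ (ι 0 0 (star x * x)) = ENNReal.ofReal (τ.val (star x * x)).re

/-- The rank `d_σ(a) = lim σ(a^{1/n})` of the positive element `a` is `r`. -/
def HasRank {B : Type} [NonUnitalCStarAlgebra B] [PartialOrder B] [StarOrderedRing B]
    (σ : B → ℝ≥0∞) (a : B) (r : ℝ≥0∞) : Prop :=
  Tendsto (fun n : ℕ => σ (a ^ (((n : ℝ≥0) + 1)⁻¹))) atTop (𝓝 r)

end

end Pool.Agent.Y269.RankDef
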